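import Pool.Agent.Helper88.CG.Goals
import Pool.Agent.Helper67.LG.PR
import Pool.Agent.Helper75.LG.PH

/-!
# Packet A3: the second moment of the number of points prime to the primorial
-/

set_option autoImplicit false

open Finset Filter Topology

open scoped Classical

namespace Pool.Agent.Helper5.CG

open Pool.Agent.Helper88.CG
open Pool.Agent.Helper88.PP (QQ)

/-- the number of classes `b` modulo `Q` with `b + h` and `b + k` prime to `Q` -/
noncomputable def cnt (h k Q : ℕ) : ℕ :=
  ((range Q).filter (fun b => Nat.Coprime (b + h) Q ∧ Nat.Coprime (b + k) Q)).card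

theorem cnt_eq (h k Q : ℕ) [NeZero Q] : cnt h k Q =
    ((univ : Finset (ZMod Q)).filter
      (fun u : ZMod Q => IsUnit (u + (h : ZMod Q)) ∧ IsUnit (u + (k : ZMod Q)))).card := by
  unfold cnt
  refine Finset.card_nbij' (fun b => (b : ZMod Q)) (fun u : ZMod Q => u.val) ?_ ?_ ?_ ?_
  · intro b hb
    simp only [coe_filter, mem_range, Set.mem_ofPred_eq] at hb
    simp only [coe_filter, mem_univ, true_and, Set.mem_ofPred_eq]
    constructor
    · have := (ZMod.isUnit_iff_coprime (b + h) Q).2 hb.2.1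
      push_cast at this
      exact this
    · have := (ZMod.isUnit_iff_coprime (b + k) Q).2 hb.2.2
      push_cast at this
      exact this
  · intro u hu
    simp only [coe_filter, mem_univ, true_and, Set.mem_ofPred_eq] at hu
    simp only [coe_filter, mem_range, Set.mem_ofPred_eq]
    refine ⟨ZMod.val_lt u, ?_, ?_⟩
    · rw [← ZMod.isUnit_iff_coprime]
      push_cast
      rw [ZMod.natCast_zmod_val]
      exact hu.1
    · rw [← ZMod.isUnit_iff_coprime]
      push_cast
      rw [ZMod.natCast_zmod_val]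
      exact hu.2
  · intro b hb
    simp only [coe_filter, mem_range, Set.mem_ofPred_eq] at hb
    exact ZMod.val_cast_of_lt hb.1
  · intro u _
    exact ZMod.natCast_zmod_val u

theorem cnt_mul (h k : ℕ) {m n : ℕ} (hm : m ≠ 0) (hn : n ≠ 0) (hmn : m.Coprime n) :
    cnt h k (m * n) = cnt h k m * cnt h k n := by
  have : NeZero m := ⟨hm⟩
  have : NeZero n := ⟨hn⟩
  rw [cnt_eq h k (m * n), cnt_eq h k m, cnt_eq h k n, ← Finset.card_product]
  refine Finset.card_equiv (ZMod.chineseRemainder hmn).toEquiv ?_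
  intro u
  simp only [mem_filter, mem_univ, true_and, mem_product]
  have e1 : ∀ j : ℕ, IsUnit (u + (j : ZMod (m * n))) ↔
      IsUnit (((ZMod.chineseRemainder hmn) u).1 + (j : ZMod m)) ∧
      IsUnit (((ZMod.chineseRemainder hmn) u).2 + (j : ZMod n)) := by
    intro j
    rw [← isUnit_map_iff (ZMod.chineseRemainder hmn) (u + (j : ZMod (m * n))), map_add, map_natCast,
      Prod.isUnit_iff]
    simp
  rw [e1, e1]
  simp only [RingEquiv.toEquiv_eq_coe, EquivLike.coe_coe]
  tauto

theorem cnt_one (h k : ℕ) : cnt h k 1 = 1 := by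
  unfold cnt
  simp

theorem cnt_prod (h k : ℕ) (S : Finset ℕ) (hS : ∀ p ∈ S, p.Prime) :
    cnt h k (∏ p ∈ S, p) = ∏ p ∈ S, cnt h k p := by
  induction S using Finset.induction_on with
  | empty => simp [cnt_one]
  | insert p S hp ih =>
    have hp' := hS p (mem_insert_self _ _)
    have hS' : ∀ q ∈ S, q.Prime := fun q hq => hS q (mem_insert_of_mem hq)
    rw [prod_insert hp, prod_insert hp, cnt_mul h k hp'.ne_zero, ih hS']
    · exact Finset.prod_ne_zero_iff.2 fun q hq => (hS' q hq).ne_zero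
    · refine Nat.Coprime.prod_right fun q hq => ?_
      exact (Nat.coprime_primes hp' (hS' q hq)).2 fun h => hp (h ▸ hq)

theorem card_coprime (h Q : ℕ) :
    ((range Q).filter (fun b => Nat.Coprime (b + h) Q)).card = Nat.totient Q := by
  rw [← Nat.filter_coprime_Ico_eq_totient Q h]
  refine Finset.card_nbij' (fun b => b + h) (fun m => m - h) ?_ ?_ ?_ ?_
  · intro b hb
    simp only [coe_filter, mem_range, Set.mem_ofPred_eq] at hb
    simp only [coe_filter, mem_Ico, Set.mem_ofPred_eq]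
    exact ⟨by omega, hb.2.symm⟩
  · intro m hm
    simp only [coe_filter, mem_Ico, Set.mem_ofPred_eq] at hm
    simp only [coe_filter, mem_range, Set.mem_ofPred_eq]
    refine ⟨by omega, ?_⟩
    have : m - h + h = m := by omega
    rw [this]
    exact hm.2.symm
  · intro b _
    simp
  · intro m hm
    simp only [coe_filter, mem_Ico, Set.mem_ofPred_eq] at hm
    show m - h + h = m
    omega

theorem cnt_self (h Q : ℕ) : cnt h h Q = Nat.totient Q := by
  rw [← card_coprime h Q]
  unfold cnt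
  simp only [and_self]

theorem cnt_comm (h k Q : ℕ) : cnt h k Q = cnt k h Q := by
  unfold cnt
  simp only [and_comm]

theorem cnt_le (h k Q : ℕ) : cnt h k Q ≤ Nat.totient Q := by
  rw [← card_coprime h Q]
  unfold cnt
  refine Finset.card_le_card ?_
  intro b hb
  rw [mem_filter] at hb ⊢
  exact ⟨hb.1, hb.2.1⟩

/-- the count modulo a prime which does not divide the difference -/
theorem cnt_prime {h t p : ℕ} (hp : p.Prime) (ht : ¬ p ∣ t) : cnt h (h + t) p + 2 = p := by
  have h1 := card_coprime h p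
  have h2 := card_coprime (h + t) p
  rw [Nat.totient_prime hp] at h1 h2
  have h3 : ((range p).filter (fun b => Nat.Coprime (b + h) p ∨ Nat.Coprime (b + (h + t)) p))
      = range p := by
    rw [Finset.filter_eq_self]
    intro b _
    by_contra hcon
    rw [not_or] at hcon
    obtain ⟨h4, h5⟩ := hcon
    rw [Nat.coprime_comm, hp.coprime_iff_not_dvd, not_not] at h4 h5
    apply ht
    have h6 := (Nat.dvd_add_right h4).1 (by rwa [← add_assoc] at h5)
    exact h6
  have h7 := Finset.card_union_add_card_inter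
    ((range p).filter (fun b => Nat.Coprime (b + h) p))
    ((range p).filter (fun b => Nat.Coprime (b + (h + t)) p))
  rw [← Finset.filter_or, h3, ← Finset.filter_and, card_range, h1, h2] at h7
  unfold cnt
  have := hp.two_le
  omega

theorem cnt_prime_le {h t p : ℕ} (hp : p.Prime) :
    (cnt h (h + t) p : ℝ) ≤ p * ((1 - 1 / (p : ℝ)) ^ 2 * if p ∣ t then (1 - 1 / (p : ℝ))⁻¹ else 1) := by
  have h2 : (2 : ℝ) ≤ p := by exact_mod_cast hp.two_le
  have hp0 : (p : ℝ) ≠ 0 := by linarith
  have h6 : 1 / (p : ℝ) < 1 := by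
    rw [div_lt_one (by linarith)]
    linarith
  split_ifs with hd
  · have h3 := cnt_le h (h + t) p
    rw [Nat.totient_prime hp] at h3
    have h4 : (cnt h (h + t) p : ℝ) ≤ ((p - 1 : ℕ) : ℝ) := by exact_mod_cast h3
    rw [Nat.cast_sub hp.one_le, Nat.cast_one] at h4
    have : (1 - 1 / (p : ℝ)) ≠ 0 := by linarith
    rw [sq, mul_assoc, mul_inv_cancel₀ this, mul_one]
    have e : (p : ℝ) * (1 - 1 / (p : ℝ)) = p - 1 := by field_simp
    rw [e]
    exact h4
  · have h3 := cnt_prime (h := h) hp hd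
    have h4 : (cnt h (h + t) p : ℝ) + 2 = p := by exact_mod_cast h3
    have e : (p : ℝ) * ((1 - 1 / (p : ℝ)) ^ 2 * 1) = p - 2 + 1 / p := by
      field_simp
      ring
    rw [e]
    have : 0 < 1 / (p : ℝ) := by positivity
    linarith

theorem totient_ratio (Q : ℕ) (hQ : Q ≠ 0) :
    (Nat.totient Q : ℝ) / Q = ∏ p ∈ Q.primeFactors, (1 - 1 / (p : ℝ)) := by
  have h := Pool.Agent.Helper75.LG.ratio_eq Q hQ
  rw [Finset.prod_inv_distrib] at h
  rw [← inv_inj, ← h, inv_div]

theorem cnt_bound {h t Q : ℕ} (hQ : Squarefree Q) (ht : 1 ≤ t) :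
    (cnt h (h + t) Q : ℝ) ≤
      Q * ((Nat.totient Q : ℝ) / Q) ^ 2 * ((t : ℝ) / (Nat.totient t : ℝ)) := by
  have hQ0 : Q ≠ 0 := hQ.ne_zero
  have hprod := Nat.prod_primeFactors_of_squarefree hQ
  have hpf : ∀ p ∈ Q.primeFactors, p.Prime := fun p hp => Nat.prime_of_mem_primeFactors hp
  have h1 : (cnt h (h + t) Q : ℝ) ≤ ∏ p ∈ Q.primeFactors,
      ((p : ℝ) * ((1 - 1 / (p : ℝ)) ^ 2 * if p ∣ t then (1 - 1 / (p : ℝ))⁻¹ else 1)) := by
    have e : cnt h (h + t) Q = ∏ p ∈ Q.primeFactors, cnt h (h + t) p := by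
      rw [← cnt_prod h (h + t) _ hpf, hprod]
    rw [e]
    push_cast
    exact Finset.prod_le_prod (fun p _ => Nat.cast_nonneg _) fun p hp => cnt_prime_le (hpf p hp)
  refine h1.trans ?_
  rw [Finset.prod_mul_distrib, Finset.prod_mul_distrib, Finset.prod_pow, totient_ratio Q hQ0]
  have e2 : (∏ p ∈ Q.primeFactors, (p : ℝ)) = Q := by
    rw [← Nat.cast_prod, hprod]
  rw [e2, ← mul_assoc]
  refine mul_le_mul_of_nonneg_left ?_ (by positivity)
  rw [← Finset.prod_filter, Pool.Agent.Helper75.LG.ratio_eq t (by omega)]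
  have hsub : (Q.primeFactors).filter (fun p => p ∣ t) ⊆ t.primeFactors := by
    intro p hp
    rw [Finset.mem_filter] at hp
    exact Nat.mem_primeFactors.2 ⟨hpf p hp.1, hp.2, by omega⟩
  have hfac : ∀ p ∈ t.primeFactors, 1 ≤ (1 - 1 / (p : ℝ))⁻¹ := by
    intro p hp
    have h2 : (2 : ℝ) ≤ p := by exact_mod_cast (Nat.prime_of_mem_primeFactors hp).two_le
    have h6 : 1 / (p : ℝ) < 1 := by
      rw [div_lt_one (by linarith)]
      linarith
    have h7 : 0 < 1 / (p : ℝ) := by positivity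
    rw [one_le_inv₀ (by linarith)]
    linarith
  rw [← Finset.prod_sdiff hsub]
  refine le_mul_of_one_le_left ?_ ?_
  · exact Finset.prod_nonneg fun p hp => zero_le_one.trans (hfac p (hsub hp))
  · have : ∀ s ⊆ t.primeFactors, 1 ≤ ∏ p ∈ s, (1 - 1 / (p : ℝ))⁻¹ := by
      intro s hs
      calc (1 : ℝ) = ∏ p ∈ s, 1 := by simp
        _ ≤ _ := Finset.prod_le_prod (fun _ _ => zero_le_one) fun p hp => hfac p (hs hp)
    exact this _ Finset.sdiff_subset

theorem sum_row {t l : ℕ} (hl : 1 ≤ l) {Q : ℕ} (hQ : Squarefree Q) {h : ℕ} (hh : h ∈ Ioc t (t + l)) :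
    ∑ k ∈ Ioc t (t + l), (cnt h k Q : ℝ) ≤
      Nat.totient Q + 8 * l * (Q * ((Nat.totient Q : ℝ) / Q) ^ 2) := by
  rw [mem_Ioc] at hh
  set A : ℝ := Q * ((Nat.totient Q : ℝ) / Q) ^ 2 with hA
  have hA0 : 0 ≤ A := by positivity
  have hg : ∀ k ∈ Icc 1 l, (0 : ℝ) ≤ (k : ℝ) / (Nat.totient k : ℝ) := fun k _ => by positivity
  have hS := Pool.Agent.Helper67.LG.sum_ratio_le l hl
  have e1 : Ioc t (t + l) = insert h (Ioc t (h - 1) ∪ Ioc h (t + l)) := by
    ext k
    simp only [mem_Ioc, mem_insert, mem_union]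
    omega
  have hn : h ∉ Ioc t (h - 1) ∪ Ioc h (t + l) := by
    simp only [mem_Ioc, mem_union]
    omega
  have hd : Disjoint (Ioc t (h - 1)) (Ioc h (t + l)) := by
    rw [Finset.disjoint_left]
    intro k h1 h2
    rw [mem_Ioc] at h1 h2
    omega
  rw [e1, sum_insert hn, sum_union hd, cnt_self]
  have b1 : ∑ k ∈ Ioc t (h - 1), (cnt h k Q : ℝ) ≤ 4 * l * A := by
    calc ∑ k ∈ Ioc t (h - 1), (cnt h k Q : ℝ)
        ≤ ∑ k ∈ Ioc t (h - 1), A * (((h - k : ℕ) : ℝ) / (Nat.totient (h - k) : ℝ)) := by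
          refine Finset.sum_le_sum fun k hk => ?_
          rw [mem_Ioc] at hk
          have := cnt_bound (h := k) (t := h - k) hQ (by omega)
          have e : k + (h - k) = h := by omega
          rw [e, cnt_comm] at this
          exact this
      _ = A * ∑ k ∈ Ioc t (h - 1), (((h - k : ℕ) : ℝ) / (Nat.totient (h - k) : ℝ)) := by
          rw [mul_sum]
      _ ≤ A * ∑ j ∈ Icc 1 l, ((j : ℝ) / (Nat.totient j : ℝ)) := by
          refine mul_le_mul_of_nonneg_left ?_ hA0
          rw [← Finset.sum_image (s := Ioc t (h - 1)) (g := fun k => h - k)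
            (f := fun j : ℕ => (j : ℝ) / (Nat.totient j : ℝ))]
          · refine Finset.sum_le_sum_of_subset_of_nonneg ?_ fun j hj _ => hg j hj
            intro j hj
            rw [mem_image] at hj
            obtain ⟨k, hk, rfl⟩ := hj
            rw [mem_Ioc] at hk
            rw [mem_Icc]
            omega
          · intro a ha b hb hab
            simp only [coe_Ioc, Set.mem_Ioc] at ha hb
            have hab' : h - a = h - b := hab
            omega
      _ ≤ A * (4 * l) := mul_le_mul_of_nonneg_left hS hA0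
      _ = 4 * l * A := by ring
  have b2 : ∑ k ∈ Ioc h (t + l), (cnt h k Q : ℝ) ≤ 4 * l * A := by
    calc ∑ k ∈ Ioc h (t + l), (cnt h k Q : ℝ)
        ≤ ∑ k ∈ Ioc h (t + l), A * (((k - h : ℕ) : ℝ) / (Nat.totient (k - h) : ℝ)) := by
          refine Finset.sum_le_sum fun k hk => ?_
          rw [mem_Ioc] at hk
          have := cnt_bound (h := h) (t := k - h) hQ (by omega)
          have e : h + (k - h) = k := by omega
          rw [e] at this
          exact this
      _ = A * ∑ k ∈ Ioc h (t + l), (((k - h : ℕ) : ℝ) / (Nat.totient (k - h) : ℝ)) := by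
          rw [mul_sum]
      _ ≤ A * ∑ j ∈ Icc 1 l, ((j : ℝ) / (Nat.totient j : ℝ)) := by
          refine mul_le_mul_of_nonneg_left ?_ hA0
          rw [← Finset.sum_image (s := Ioc h (t + l)) (g := fun k => k - h)
            (f := fun j : ℕ => (j : ℝ) / (Nat.totient j : ℝ))]
          · refine Finset.sum_le_sum_of_subset_of_nonneg ?_ fun j hj _ => hg j hj
            intro j hj
            rw [mem_image] at hj
            obtain ⟨k, hk, rfl⟩ := hj
            rw [mem_Ioc] at hk
            rw [mem_Icc]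
            omega
          · intro a ha b hb hab
            simp only [coe_Ioc, Set.mem_Ioc] at ha hb
            have hab' : a - h = b - h := hab
            omega
      _ ≤ A * (4 * l) := mul_le_mul_of_nonneg_left hS hA0
      _ = 4 * l * A := by ring
  linarith

theorem sum_sq (t l Q : ℕ) :
    ∑ b ∈ range Q, (((Ioc t (t + l)).filter (fun h => Nat.Coprime (b + h) Q)).card : ℝ) ^ 2
      = ∑ h ∈ Ioc t (t + l), ∑ k ∈ Ioc t (t + l), (cnt h k Q : ℝ) := by
  have h1 : ∀ b ∈ range Q,
      (((Ioc t (t + l)).filter (fun h => Nat.Coprime (b + h) Q)).card : ℝ) ^ 2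
      = ∑ h ∈ Ioc t (t + l), ∑ k ∈ Ioc t (t + l),
        if Nat.Coprime (b + h) Q ∧ Nat.Coprime (b + k) Q then (1 : ℝ) else 0 := by
    intro b _
    rw [Finset.card_filter]
    push_cast
    rw [sq, Finset.sum_mul_sum]
    refine Finset.sum_congr rfl fun h _ => Finset.sum_congr rfl fun k _ => ?_
    by_cases hh : Nat.Coprime (b + h) Q
    · by_cases hk : Nat.Coprime (b + k) Q
      · rw [if_pos hh, if_pos hk, if_pos ⟨hh, hk⟩, mul_one]
      · have hn : ¬ (Nat.Coprime (b + h) Q ∧ Nat.Coprime (b + k) Q) := fun q => hk q.2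
        rw [if_neg hk, if_neg hn, mul_zero]
    · have hn : ¬ (Nat.Coprime (b + h) Q ∧ Nat.Coprime (b + k) Q) := fun q => hh q.1
      rw [if_neg hh, if_neg hn, zero_mul]
  rw [Finset.sum_congr rfl h1, Finset.sum_comm]
  refine Finset.sum_congr rfl fun h _ => ?_
  rw [Finset.sum_comm]
  refine Finset.sum_congr rfl fun k _ => ?_
  unfold cnt
  rw [Finset.card_filter]
  push_cast
  rfl

theorem a3 : StmtA3 := by
  obtain ⟨C, hC, hph⟩ := Pool.Agent.Helper75.LG.ph
  have hev : ∀ᶠ x : ℕ in atTop, 40 ≤ Real.log x :=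
    (Real.tendsto_log_atTop.comp tendsto_natCast_atTop_atTop).eventually_ge_atTop 40
  obtain ⟨x0, hx0⟩ := eventually_atTop.1 hev
  refine ⟨C + 8, by positivity, x0, ?_⟩
  intro x hx t l hl
  have hlog := hx0 x hx
  have hlog0 : 0 < Real.log x := by linarith
  have hll : 1 ≤ Real.log (Real.log x) := by
    rw [Real.le_log_iff_exp_le hlog0]
    have := Real.exp_one_lt_d9
    linarith
  have hl1 : (1 : ℝ) ≤ l := hll.trans hl
  have hl1' : 1 ≤ l := by exact_mod_cast hl1
  have hQsf : Squarefree (QQ x) := squarefree_primorial _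
  have hQ0 : (0 : ℝ) < QQ x := by exact_mod_cast Nat.pos_of_ne_zero hQsf.ne_zero
  set φ : ℝ := (Nat.totient (QQ x) : ℝ) / QQ x with hφ
  have hφ0 : 0 < φ := by
    have : 0 < Nat.totient (QQ x) := Nat.totient_pos.2 (Nat.pos_of_ne_zero hQsf.ne_zero)
    have : (0 : ℝ) < Nat.totient (QQ x) := by exact_mod_cast this
    positivity
  set y := ⌊Real.log x / 20⌋₊ with hy
  have hy2 : 2 ≤ y := by
    rw [hy, Nat.le_floor_iff (by positivity)]
    push_cast
    linarith
  have hyle : (y : ℝ) ≤ Real.log x := by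
    have := Nat.floor_le (a := Real.log x / 20) (by positivity)
    rw [← hy] at this
    linarith
  have hlogy : Real.log y ≤ l := by
    refine (Real.log_le_log ?_ hyle).trans hl
    have : (2 : ℝ) ≤ y := by exact_mod_cast hy2
    linarith
  have h1 : 1 ≤ C * (l * φ) := by
    have h2 := hph y hy2
    have h3 : (primorial y : ℝ) / (Nat.totient (primorial y) : ℝ) = φ⁻¹ := by
      rw [hφ, inv_div]
      rfl
    rw [h3] at h2
    have h4 : φ⁻¹ ≤ C * l := h2.trans (mul_le_mul_of_nonneg_left hlogy hC.le)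
    rw [inv_le_iff_one_le_mul₀ hφ0] at h4
    linarith
  rw [sum_sq]
  have h5 : ∑ h ∈ Ioc t (t + l), ∑ k ∈ Ioc t (t + l), (cnt h k (QQ x) : ℝ) ≤
      ∑ h ∈ Ioc t (t + l), (Nat.totient (QQ x) + 8 * l * (QQ x * φ ^ 2) : ℝ) :=
    Finset.sum_le_sum fun h hh => sum_row hl1' hQsf hh
  refine h5.trans ?_
  rw [Finset.sum_const, Nat.card_Ioc, nsmul_eq_mul]
  have e : ((t + l - t : ℕ) : ℝ) = l := by
    congr 1
    omega
  rw [e]
  have e2 : (Nat.totient (QQ x) : ℝ) = QQ x * φ := by
    rw [hφ]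
    field_simp
  rw [e2]
  have h6 : (l : ℝ) * (QQ x * φ) ≤ C * QQ x * (l * φ) ^ 2 := by
    have : (l : ℝ) * (QQ x * φ) * 1 ≤ (l : ℝ) * (QQ x * φ) * (C * (l * φ)) :=
      mul_le_mul_of_nonneg_left h1 (by positivity)
    calc (l : ℝ) * (QQ x * φ) = (l : ℝ) * (QQ x * φ) * 1 := by ring
      _ ≤ _ := this
      _ = _ := by ring
  calc (l : ℝ) * (QQ x * φ + 8 * l * (QQ x * φ ^ 2))
      = l * (QQ x * φ) + 8 * QQ x * (l * φ) ^ 2 := by ring
    _ ≤ C * QQ x * (l * φ) ^ 2 + 8 * QQ x * (l * φ) ^ 2 := by linarith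
    _ = (C + 8) * QQ x * (l * φ) ^ 2 := by ring

end Pool.Agent.Helper5.CG
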