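import Pool.Agent.Helper88.CG.Goals

/-!
# Packet TF: the Fourier series of the tent
-/

set_option autoImplicit false

namespace Pool.Agent.Helper5.CG

open Pool.Agent.Helper88.CG

theorem bernoulli_two_eval (x : ℝ) :
    (Polynomial.map (algebraMap ℚ ℝ) (Polynomial.bernoulli 2)).eval x = x ^ 2 - x + 1 / 6 := by
  simp only [Polynomial.bernoulli, Finset.sum_range_succ, Finset.sum_range_zero]
  simp [bernoulli_one, bernoulli_two, Polynomial.map_monomial]
  try ring

theorem hasSum_of_eq {f g : ℕ → ℝ} {a b : ℝ} (h : HasSum f a) (hf : ∀ ν, g ν = f ν) (hab : b = a) :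
    HasSum g b := by
  have : g = f := funext hf
  rw [this, hab]
  exact h

theorem base {x : ℝ} (hx : |x| ≤ 1) :
    HasSum (fun ν : ℕ => 1 / ((ν : ℝ) + 1) ^ 2 * Real.cos (2 * Real.pi * ((ν : ℝ) + 1) * x))
      (Real.pi ^ 2 * (x ^ 2 - |x| + 1 / 6)) := by
  have h := hasSum_one_div_nat_pow_mul_cos (k := 1) one_ne_zero (x := |x|) ⟨abs_nonneg x, hx⟩
  have h2 := (hasSum_nat_add_iff' 1).2 h
  simp only [Finset.range_one, Finset.sum_singleton, mul_one] at h2
  rw [bernoulli_two_eval] at h2
  refine hasSum_of_eq h2 (fun ν => ?_) ?_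
  · push_cast
    congr 1
    rw [← Real.cos_abs, ← Real.cos_abs (2 * Real.pi * ((ν : ℝ) + 1) * |x|)]
    rw [abs_mul, abs_mul _ |x|, abs_abs]
  · have e : (Nat.factorial 2 : ℝ) = 2 := by norm_num [Nat.factorial]
    rw [sq_abs, e]
    norm_num
    left
    ring

theorem tf : StmtTF := by
  intro h u h0 h1 hu
  have hu' := abs_le.1 hu
  have a1 : |u + h| ≤ 1 := abs_le.2 ⟨by linarith [hu'.1], by linarith [hu'.2]⟩
  have a2 : |u - h| ≤ 1 := abs_le.2 ⟨by linarith [hu'.1], by linarith [hu'.2]⟩
  have b0 := base (x := u) (hu.trans (by norm_num))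
  have b1 := base a1
  have b2 := base a2
  have hpi : Real.pi ≠ 0 := Real.pi_ne_zero
  have H := ((b0.sub ((b1.add b2).mul_left (1 / 2))).mul_left (1 / (h * Real.pi ^ 2)))
  refine hasSum_of_eq H (fun ν => ?_) ?_
  · have e1 : 2 * Real.pi * ((ν : ℝ) + 1) * (u + h)
        = 2 * Real.pi * ((ν : ℝ) + 1) * u + 2 * Real.pi * ((ν : ℝ) + 1) * h := by ring
    have e2 : 2 * Real.pi * ((ν : ℝ) + 1) * (u - h)
        = 2 * Real.pi * ((ν : ℝ) + 1) * u - 2 * Real.pi * ((ν : ℝ) + 1) * h := by ring
    rw [e1, e2, Real.cos_add, Real.cos_sub]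
    have hν : ((ν : ℝ) + 1) ≠ 0 := by positivity
    field_simp
    ring
  · have key : |u + h| + |u - h| = 2 * max |u| h := by
      rcases le_total |u| h with hh | hh
      · rw [max_eq_right hh]
        have := abs_le.1 hh
        rw [abs_of_nonneg (by linarith [this.1]), abs_of_nonpos (by linarith [this.2])]
        ring
      · rw [max_eq_left hh]
        rcases le_total 0 u with hp | hp
        · rw [abs_of_nonneg hp] at hh ⊢
          rw [abs_of_nonneg (by linarith), abs_of_nonneg (by linarith)]
          ring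
        · rw [abs_of_nonpos hp] at hh ⊢
          rw [abs_of_nonpos (by linarith), abs_of_nonpos (by linarith)]
          ring
    have e3 : max 0 (1 - |u| / h) = (max |u| h - |u|) / h := by
      rcases le_total |u| h with hh | hh
      · rw [max_eq_right hh, max_eq_right]
        · field_simp
        · have : |u| / h ≤ 1 := (div_le_one h0).2 hh
          linarith
      · rw [max_eq_left hh, max_eq_left]
        · simp
        · have : 1 ≤ |u| / h := (one_le_div h0).2 hh
          linarith
    rw [e3]
    have e4 : max |u| h = (|u + h| + |u - h|) / 2 := by rw [key]; ring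
    rw [e4]
    field_simp
    ring

end Pool.Agent.Helper5.CG
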